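import Mathlib
import Pool.Agent.V11128.FlowCub

set_option autoImplicit false

/-!
# Lower bound for the flow polynomial coefficients of simple cubic graphs
-/

namespace Pool.Agent.Results.MP_76bad1_co.FlowCoeff

open Polynomial Module
open Pool.Agent.V11128.FlowLin
open Pool.Agent.V11128.FlowCuts hiding X

variable {V : Type*} [Fintype V] [DecidableEq V]

/-- The number of connected components of the spanning subgraph `(V, Z)`. -/
noncomputable def numComp (Z : Finset (Sym2 V)) : ℕ :=
  Nat.card (SimpleGraph.fromEdgeSet (Z : Set (Sym2 V))).ConnectedComponent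

/-- The flow polynomial `∑_{Z ⊆ E} (-1)^{m - |Z|} t^{|Z| + c(Z) - n}`. -/
noncomputable def flowPoly (G : SimpleGraph V) [DecidableRel G.Adj] : ℤ[X] :=
  ∑ Z ∈ G.edgeFinset.powerset,
    (-1) ^ (G.edgeFinset.card - Z.card) * X ^ (Z.card + numComp Z - Fintype.card V)

/-- Rank of the incidence vectors of `Z` plus number of components is the number of vertices. -/
theorem rank_comp {Z : Finset (Sym2 V)} (hZ : ∀ e ∈ Z, ¬ e.IsDiag) :
    finrank (ZMod 2) (sp (ev (V := V)) ⊥ Z) + numComp Z = Fintype.card V := by
  classical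
  let H := SimpleGraph.fromEdgeSet (Z : Set (Sym2 V))
  let M : Matrix Z V (ZMod 2) := fun e x => ev e.1 x
  have hrow : Submodule.span (ZMod 2) (Set.range M.row) = sp (ev (V := V)) ⊥ Z := by
    unfold sp
    rw [bot_sup_eq]
    congr 1
    ext w
    constructor
    · rintro ⟨e, rfl⟩
      exact ⟨e.1, e.2, rfl⟩
    · rintro ⟨e, he, rfl⟩
      exact ⟨⟨e, he⟩, rfl⟩
  have hrank : M.rank = finrank (ZMod 2) (sp (ev (V := V)) ⊥ Z) := by
    rw [Matrix.rank_eq_finrank_span_row, hrow]
  have h1 := LinearMap.finrank_range_add_finrank_ker M.mulVecLin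
  have h2 : finrank (ZMod 2) (LinearMap.range M.mulVecLin) = M.rank := rfl
  rw [h2, hrank, finrank_pi] at h1
  have hker : LinearMap.ker M.mulVecLin =
      LinearMap.range (LinearMap.funLeft (ZMod 2) (ZMod 2) H.connectedComponentMk) := by
    ext t
    have hmem : t ∈ LinearMap.ker M.mulVecLin ↔ ∀ a b, s(a, b) ∈ Z → t a = t b := by
      rw [LinearMap.mem_ker, Matrix.mulVecLin_apply]
      have hval : ∀ a b (hab : s(a, b) ∈ Z), (M.mulVec t) ⟨s(a, b), hab⟩ = t a + t b := by
        intro a b hab
        have hne : a ≠ b := by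
          have := hZ _ hab
          rwa [Sym2.mk_isDiag_iff] at this
        have : (M.mulVec t) ⟨s(a, b), hab⟩ = ∑ x, ev s(a, b) x * t x := rfl
        rw [this, ev_mk hne]
        simp only [Pi.add_apply, add_mul, Finset.sum_add_distrib, Pi.single_apply, ite_mul, one_mul,
          zero_mul, Finset.sum_ite_eq', Finset.mem_univ, if_true]
      have z2 : ∀ p q : ZMod 2, p + q = 0 ↔ p = q := by decide
      constructor
      · intro h a b hab
        have := congrFun h ⟨s(a, b), hab⟩
        rw [hval] at this
        exact (z2 _ _).1 this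
      · intro h
        ext ⟨e, he⟩
        revert he
        induction e with
        | _ a b =>
          intro he
          rw [hval]
          exact (z2 _ _).2 (h a b he)
    rw [hmem, LinearMap.mem_range]
    constructor
    · intro h
      refine ⟨fun c => c.lift t ?_, ?_⟩
      · intro a b p hp
        clear hp
        induction p with
        | nil => rfl
        | cons hadj p ih =>
          rw [h _ _ ((SimpleGraph.fromEdgeSet_adj _).1 hadj).1]
          exact ih
      · ext x; rfl
    · rintro ⟨s, rfl⟩ a b hab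
      show s (H.connectedComponentMk a) = s (H.connectedComponentMk b)
      congr 1
      apply SimpleGraph.ConnectedComponent.sound
      apply SimpleGraph.Adj.reachable
      rw [SimpleGraph.fromEdgeSet_adj]
      exact ⟨hab, by have := hZ _ hab; rwa [Sym2.mk_isDiag_iff] at this⟩
  have hfin : finrank (ZMod 2) (LinearMap.ker M.mulVecLin) = numComp Z := by
    rw [hker, LinearMap.finrank_range_of_inj (LinearMap.funLeft_injective_of_surjective _ _ _
      (fun c => c.exists_rep)), finrank_pi, numComp, Nat.card_eq_fintype_card]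
  rw [← hfin]
  exact h1

theorem sp_empty_rank : d (ev (V := V)) ⊥ ∅ = 0 := by
  rw [d_empty, finrank_bot]

/-- Up to a global sign, the coefficients of the flow polynomial are those of `A`. -/
theorem coeff_flow (G : SimpleGraph V) [DecidableRel G.Adj] (i : ℕ) :
    (flowPoly G).coeff i = (-1) ^ (G.edgeFinset.card + i + d (ev (V := V)) ⊥ G.edgeFinset) *
      (A ev ⊥ G.edgeFinset).coeff i := by
  classical
  unfold flowPoly A
  rw [finsetSum_coeff, finsetSum_coeff, Finset.mul_sum]
  apply Finset.sum_congr rfl
  intro Z hZ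
  have hZE := Finset.mem_powerset.1 hZ
  have hr := rank_comp (V := V) (Z := Z) (fun e he =>
    G.not_isDiag_of_mem_edgeSet (SimpleGraph.mem_edgeFinset.1 (hZE he)))
  have hr' : d (ev (V := V)) ⊥ Z + numComp Z = Fintype.card V := hr
  have hle := d_le (ev (V := V)) ⊥ Z
  rw [sp_empty_rank, add_zero] at hle
  have hexp : Z.card + numComp Z - Fintype.card V = Z.card - d (ev (V := V)) ⊥ Z := by omega
  rw [hexp, sp_empty_rank, add_zero]
  have hone : ∀ (k l : ℕ), ((-1) ^ k * X ^ l : ℤ[X]).coeff i = if i = l then (-1) ^ k else 0 := by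
    intro k l
    have : ((-1) ^ k * X ^ l : ℤ[X]) = C ((-1) ^ k) * X ^ l := by simp
    rw [this, coeff_C_mul, coeff_X_pow]
    split_ifs <;> simp
  rw [hone, hone]
  split_ifs with h
  · have hc := Finset.card_le_card hZE
    have h1 : G.edgeFinset.card + i + d (ev (V := V)) ⊥ G.edgeFinset +
        (d (ev (V := V)) ⊥ G.edgeFinset + d (ev (V := V)) ⊥ Z) =
        (G.edgeFinset.card - Z.card) + 2 * (Z.card + d (ev (V := V)) ⊥ G.edgeFinset) := by omega
    rw [← pow_add, h1, pow_add, pow_mul]
    norm_num
  · simp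

theorem boundary_mem {G : SimpleGraph V} [DecidableRel G.Adj] {H : SimpleGraph V} (hH : H ≤ G)
    {T : Finset V} {x y : V} (h : H.Reachable x y) (hx : x ∈ T) (hy : y ∉ T) :
    ∃ e ∈ dl G.edgeFinset T, e ∈ H.edgeSet := by
  obtain ⟨p⟩ := h
  obtain ⟨dd, _, h1, h2⟩ := p.exists_boundary_dart (T : Set V) (by simpa using hx) (by simpa using hy)
  refine ⟨dd.edge, ?_, dd.edge_mem⟩
  rw [mem_dl]
  refine ⟨SimpleGraph.mem_edgeFinset.2 (SimpleGraph.edgeSet_mono hH dd.edge_mem), dd.fst, ?_, dd.snd,
    ?_, by simpa using h1, by simpa using h2⟩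
  · exact Sym2.mem_mk_left _ _
  · exact Sym2.mem_mk_right _ _

theorem cub_of_graph (G : SimpleGraph V) [DecidableRel G.Adj] (hcub : G.IsRegularOfDegree 3)
    (hconn : G.Connected) (hbr : ∀ e ∈ G.edgeSet, ¬ G.IsBridge e) : Cub G.edgeFinset where
  loop e he := G.not_isDiag_of_mem_edgeSet (SimpleGraph.mem_edgeFinset.1 he)
  three x := by
    rw [← SimpleGraph.incidenceFinset_eq_filter, SimpleGraph.card_incidenceFinset_eq_degree]
    exact hcub.degree_eq x
  two T hT hTu := by
    obtain ⟨x, hx⟩ := hT
    obtain ⟨y, hy⟩ : ∃ y, y ∉ T := by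
      by_contra hcon
      push Not at hcon
      exact hTu (Finset.eq_univ_iff_forall.2 hcon)
    by_contra hcon
    obtain ⟨g, hg, hgG⟩ := boundary_mem (le_refl G) (hconn.preconnected x y) hx hy
    have hone : ∀ f ∈ dl G.edgeFinset T, f = g := by
      intro f hf
      by_contra hfg
      have : ({f, g} : Finset (Sym2 V)) ⊆ dl G.edgeFinset T := by
        intro e he
        simp only [Finset.mem_insert, Finset.mem_singleton] at he
        rcases he with rfl | rfl <;> assumption
      have := Finset.card_le_card this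
      rw [Finset.card_pair hfg] at this
      omega
    have hbg := hbr g hgG
    have key : ∀ a b, g = s(a, b) → a ∈ T → b ∉ T → False := by
      intro a b hgab ha hb
      apply hbg
      rw [hgab, SimpleGraph.isBridge_iff]
      intro hreach
      obtain ⟨f, hf, hfH⟩ := boundary_mem (SimpleGraph.deleteEdges_le _) hreach ha hb
      have := hone f hf
      rw [SimpleGraph.edgeSet_deleteEdges] at hfH
      exact hfH.2 (by rw [this, hgab]; rfl)
    rw [mem_dl] at hg
    obtain ⟨_, a, ha, b, hb, haT, hbT⟩ := hg
    have hab : a ≠ b := fun h => hbT (h ▸ haT)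
    exact key a b ((Sym2.mem_and_mem_iff hab).1 ⟨ha, hb⟩) haT hbT

/-- **Theorem.** For every simple connected bridgeless cubic graph `G` on `n ≥ 6` vertices, every
coefficient of `(t + 1) (t + 2)^(n/2 - 2) (t + 3)^2` is at most the absolute value of the
corresponding coefficient of the flow polynomial of `G`. -/
theorem result (V : Type*) [Fintype V] [DecidableEq V] (G : SimpleGraph V) [DecidableRel G.Adj]
    (hcub : G.IsRegularOfDegree 3) (hconn : G.Connected) (hbr : ∀ e ∈ G.edgeSet, ¬ G.IsBridge e)
    (hn : 6 ≤ Fintype.card V) (i : ℕ) :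
    ((X + 1) * (X + 2) ^ (Fintype.card V / 2 - 2) * (X + 3) ^ 2 : ℤ[X]).coeff i ≤
      |(flowPoly G).coeff i| := by
  have hC := cub_of_graph G hcub hconn hbr
  have hcard : 2 * G.edgeFinset.card = 3 * Fintype.card V := by
    rw [← G.sum_degrees_eq_twice_card_edges]
    rw [Finset.sum_congr rfl (fun x _ => hcub.degree_eq x)]
    simp [mul_comm]
  have hcomp : numComp G.edgeFinset = 1 := by
    unfold numComp
    rw [SimpleGraph.coe_edgeFinset, SimpleGraph.fromEdgeSet_edgeSet]
    haveI := hconn.preconnected.subsingleton_connectedComponent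
    haveI : Nonempty G.ConnectedComponent := hconn.nonempty.map G.connectedComponentMk
    exact Nat.card_of_subsingleton (Classical.arbitrary _)
  have hrank := rank_comp (V := V) (Z := G.edgeFinset) hC.loop
  rw [hcomp] at hrank
  have hmain := cub_bound hC hn hcard hrank i
  rw [coeff_sub, sub_nonneg] at hmain
  rw [coeff_flow, abs_mul, abs_pow, abs_neg, abs_one, one_pow, one_mul]
  exact hmain.trans (le_abs_self _)

end Pool.Agent.Results.MP_76bad1_co.FlowCoeff
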